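import Pool.Agent.H31.SW.Tools

/-!
# A sub-Weyl bound for Hecke L-functions: (NS) nonstationary integrals
-/

set_option autoImplicit false

open Complex

namespace Pool.Agent.H59.SWL

open Pool.Agent.H31.SW
open Pool.Agent.H29.DW (dg Rl lf)

theorem pf_NS (hN1 : W_N1) : W_NS := by
  intro N ρ hρ
  induction N with
  | zero =>
    refine ⟨2 * ρ + 8 * ρ ^ 2, by positivity, ?_⟩
    intro r w₀ Ψ p g G P hG _ _ _ _ hg
    rw [pow_zero, div_one]
    refine norm_itg_le hρ.le hG (fun w => ?_) (fun w hw => ?_) (w₀ := w₀)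
    · rw [norm_mul, norm_EE, mul_one]
      exact hg.norm_le hG w
    · rw [hg.eq_zero hw, zero_mul]
  | succ N ih =>
    obtain ⟨C0, hC0, h0⟩ := ih
    obtain ⟨C1, hC1, h1⟩ := hN1 N ρ hρ
    refine ⟨C0 * C1, by positivity, ?_⟩
    intro r w₀ Ψ p g G P hG hP hΨ hp hPp hg
    obtain ⟨g', hg', he⟩ := h1 r w₀ Ψ p g G P hG hP hΨ hp hPp hg
    rw [he]
    refine (h0 r w₀ Ψ p g' (C1 * G / P) P (by positivity) hP hΨ hp hPp hg').trans (le_of_eq ?_)
    field_simp
    ring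

end Pool.Agent.H59.SWL
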